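import Mathlib
import Pool.Agent.Lib_helper25.POS.Defs
import Pool.Agent.Lib_helper25.PR.PA
import Pool.Agent.Lib_helper25.PR.PB

/-!
# The zero level near a coset different from the subgroup
-/

set_option autoImplicit false

namespace Pool.Agent.NEG

open Finset Pool.Agent.GL Pool.Agent.POS

variable {G : Type*} [AddCommGroup G] [DecidableEq G]

theorem sch_far (B0 X : Finset G) (hX : ∀ x ∈ X, ∀ y ∈ X, x + y ∉ X) :
    sch B0 ≤ 3 * ((B0 \ X).card : ℤ) * B0.card := by
  have hsub : (B0 ×ˢ B0).filter (fun p => p.1 + p.2 ∈ B0) ⊆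
      ((B0 \ X) ×ˢ B0) ∪ (B0 ×ˢ (B0 \ X)) ∪
        (B0 ×ˢ (B0 \ X)).image (fun p => (p.1, p.2 - p.1)) := by
    rintro ⟨x, y⟩ hxy
    simp only [mem_filter, mem_product] at hxy
    obtain ⟨⟨hx, hy⟩, hz⟩ := hxy
    by_cases h1 : x ∈ X
    · by_cases h2 : y ∈ X
      · have h3 := hX x h1 y h2
        refine mem_union_right _ (mem_image.2 ⟨(x, x + y), ?_, ?_⟩)
        · simp [hx, hz, h3]
        · simp
      · refine mem_union_left _ (mem_union_right _ ?_)
        simp [hx, hy, h2]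
    · refine mem_union_left _ (mem_union_left _ ?_)
      simp [hx, hy, h1]
  have hc := card_le_card hsub
  have h1 := (hc.trans (card_union_le _ _)).trans
    (Nat.add_le_add (card_union_le _ _) card_image_le)
  simp only [card_product] at h1
  unfold sch
  have h2 : ((((B0 ×ˢ B0).filter (fun p => p.1 + p.2 ∈ B0)).card : ℕ) : ℤ) ≤
      ((B0 \ X).card : ℤ) * B0.card + B0.card * (B0 \ X).card + B0.card * (B0 \ X).card := by
    exact_mod_cast h1
  linarith

/-- `B₀` near a coset `X ≠ K` -/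
theorem coset_case (K : AddSubgroup G) (KK X B0 : Finset G) (hKK : ∀ x, x ∈ KK ↔ x ∈ K)
    (hX : Cst K X) (hne : X ≠ KK)
    (hr : 4 * (((X \ B0).card : ℤ) + ((B0 \ X).card : ℤ)) ≤ KK.card) :
    5 * FF B0 ≤ -4 * (KK.card : ℤ) ^ 2 := by
  obtain ⟨w, hw⟩ := hX
  have hwK : w ∉ K := by
    intro hwK
    apply hne
    ext x
    rw [hw, hKK]
    constructor
    · intro h; have := K.add_mem h hwK; rwa [sub_add_cancel] at this
    · intro h; exact K.sub_mem h hwK
  have hXX : ∀ x ∈ X, ∀ y ∈ X, x + y ∉ X := by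
    intro x hx y hy hxy
    rw [hw] at hx hy hxy
    apply hwK
    have h1 := K.sub_mem (K.add_mem hx hy) hxy
    have h2 : x - w + (y - w) - (x + y - w) = -w := by abel
    rw [h2] at h1
    exact (neg_mem_iff).1 h1
  have hcard : X.card = KK.card := by
    have : X = KK.map (Equiv.addRight w).toEmbedding := by
      ext x
      simp only [mem_map_equiv, Equiv.addRight_symm, Equiv.coe_addRight]
      rw [hw, hKK, sub_eq_add_neg]
    rw [this, card_map]
  have h1 := sch_far B0 X hXX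
  have h2 : (B0.card : ℤ) = ((B0 \ X).card : ℤ) + (X.card - ((X \ B0).card : ℤ)) := by
    have e1 := card_sdiff_add_card_inter B0 X
    have e2 := card_sdiff_add_card_inter X B0
    rw [inter_comm] at e2
    have e1' : ((B0 \ X).card : ℤ) + ((B0 ∩ X).card : ℤ) = B0.card := by exact_mod_cast e1
    have e2' : ((X \ B0).card : ℤ) + ((B0 ∩ X).card : ℤ) = X.card := by exact_mod_cast e2
    linarith
  have hk : (X.card : ℤ) = KK.card := by exact_mod_cast hcard
  rw [hk] at h2
  have hp : (0 : ℤ) ≤ ((X \ B0).card : ℤ) := by positivity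
  have hr0 : (0 : ℤ) ≤ ((B0 \ X).card : ℤ) := by positivity
  unfold FF
  set p : ℤ := ((X \ B0).card : ℤ)
  set r : ℤ := ((B0 \ X).card : ℤ)
  set k : ℤ := (KK.card : ℤ)
  set c : ℤ := (B0.card : ℤ)
  have hk0 : 0 ≤ k := by linarith
  have hc : c = r + (k - p) := h2
  have h3 : 5 * (4 * sch B0 - 3 * c ^ 2) ≤ 5 * (12 * r * c - 3 * c ^ 2) := by nlinarith
  refine h3.trans ?_
  rw [hc]
  -- 5 (12 r (k - p + r) - 3 (k - p + r)^2) ≤ -4 k^2
  nlinarith [mul_nonneg hr0 hp, mul_nonneg hp hk0, mul_nonneg hr0 hk0,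
    mul_nonneg hr0 (by linarith : 0 ≤ k - 4 * (p + r)),
    mul_nonneg hp (by linarith : 0 ≤ k - 4 * (p + r)),
    mul_nonneg hk0 (by linarith : 0 ≤ k - 4 * (p + r)), sq_nonneg p, sq_nonneg r]

theorem ff_le_zero_level {m : ℕ} [NeZero m] (chi : G →+ ZMod m) (B : Finset G)
    (hB : NoWrap chi B) : FF B ≤ FF (lev chi B 0) := by
  have h := pl_star chi B hB
  have h2 : 0 ≤ ∑ u ∈ (B.image chi).erase 0, cost (lev chi B u) (lev chi B 0) :=
    sum_nonneg fun u _ => cost_nonneg _ _
  have h3 := sq_nonneg (DD chi B)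
  linarith

end Pool.Agent.NEG
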