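import Mathlib
import Pool.Agent.Lib_helper28.GL.Wit

/-!
# Lower bounds for the conjectured maximum (negative regime)
-/

set_option autoImplicit false

namespace Pool.Agent.NEG

open Finset Pool.Agent.GL

variable {G : Type*} [AddCommGroup G]

/-- `K` is alive for the size `b`: some odd multiple of `|K|` at distance at most `|K|` from `b`
is realised -/
def Al (b : ℕ) (K : AddSubgroup G) : Prop :=
  ∃ j : ℕ, (2 * j * Nat.card K ≤ b ∧ b ≤ (2 * j + 1) * Nat.card K ∧ Alive K (3 * j + 1)) ∨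
    ((2 * j + 1) * Nat.card K ≤ b ∧ b ≤ (2 * j + 2) * Nat.card K ∧ Alive K (3 * j + 2))

theorem al_exact {b : ℕ} {K : AddSubgroup G} (h : Al b K) :
    ∃ (j s : ℕ), s ≤ Nat.card K ∧ ((b : ℤ) = (2 * j + 1) * (Nat.card K : ℤ) + s ∨
      (b : ℤ) + s = (2 * j + 1) * (Nat.card K : ℤ)) ∧
      W G b (((Nat.card K : ℤ) - s) * ((Nat.card K : ℤ) - 5 * s)) := by
  obtain ⟨j, ⟨h1, h2, h3⟩ | ⟨h1, h2, h3⟩⟩ := h
  · obtain ⟨s, hs⟩ := Nat.exists_eq_add_of_le h2
    have hs' : s ≤ Nat.card K := by nlinarith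
    refine ⟨j, s, hs', Or.inr ?_, Or.inr ⟨K, j, s, hs', rfl, Or.inl ⟨hs.symm, h3⟩⟩⟩
    exact_mod_cast hs.symm
  · obtain ⟨s, hs⟩ := Nat.exists_eq_add_of_le h1
    have hs' : s ≤ Nat.card K := by nlinarith
    refine ⟨j, s, hs', Or.inl ?_, Or.inr ⟨K, j, s, hs', rfl, Or.inr ⟨hs, h3⟩⟩⟩
    exact_mod_cast hs

theorem al_val {b : ℕ} {K : AddSubgroup G} (h : Al b K) :
    ∃ v, W G b v ∧ -4 * (Nat.card K : ℤ) ^ 2 ≤ 5 * v := by
  obtain ⟨j, s, _, _, hW⟩ := al_exact h
  refine ⟨_, hW, ?_⟩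
  nlinarith [sq_nonneg (3 * (Nat.card K : ℤ) - 5 * s)]

/-- a dead subgroup of level `E` satisfies `(E - E/3) |K| ≤ b` -/
theorem dead_ge [Finite G] {b : ℕ} {K : AddSubgroup G} (h : ¬ Al b K) {E : ℕ}
    (hE : Alive K E) : (E - E / 3) * Nat.card K ≤ b := by
  have hk : 0 < Nat.card K := Nat.card_pos
  set k := Nat.card K with hkdef
  by_contra hlt
  push Not at hlt
  apply h
  have hq1 : b / k * k ≤ b := Nat.div_mul_le_self b k
  have hq2 : b < (b / k + 1) * k := by
    have h2 := Nat.div_add_mod b k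
    have h3 := Nat.mod_lt b hk
    nlinarith
  have hq3 : b / k < E - E / 3 := by
    by_contra hh
    push Not at hh
    have : (E - E / 3) * k ≤ b / k * k := Nat.mul_le_mul_right _ hh
    omega
  rcases Nat.even_or_odd' (b / k) with ⟨j, hj | hj⟩
  · refine ⟨j, Or.inl ⟨?_, ?_, hE.mono (by omega)⟩⟩
    · rw [← hkdef, ← hj]; exact hq1
    · rw [← hkdef, ← hj]; omega
  · refine ⟨j, Or.inr ⟨?_, ?_, hE.mono (by omega)⟩⟩
    · rw [← hkdef, ← hj]; exact hq1
    · rw [← hkdef]; rw [hj] at hq2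
      have : 2 * j + 1 + 1 = 2 * j + 2 := rfl
      rw [this] at hq2; omega

/-- the trivial subgroup alive: the value is nonnegative -/
theorem al_bot {b : ℕ} (h : Al b (⊥ : AddSubgroup G)) : ∃ v, W G b v ∧ 0 ≤ v := by
  obtain ⟨v, hv, h5⟩ := al_val h
  refine ⟨v, hv, ?_⟩
  simp only [AddSubgroup.card_bot] at h5
  push_cast at h5
  omega

/-- a dead subgroup with `6 E |K| ≥ 5 b` : the value is nonnegative -/
theorem dead_big [Finite G] {b : ℕ} (hb : b < Nat.card G) {K : AddSubgroup G}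
    (h : ¬ Al b K) {E : ℕ} (hE : Alive K E) {H : AddSubgroup G}
    (hH : Nat.card H = E * Nat.card K)
    (hS : ∀ t, t ≤ (E / 3) * Nat.card K → ∃ S : Finset G, (∀ x ∈ S, x ∈ H) ∧ SF S ∧ S.card = t)
    (h56 : 5 * b ≤ 6 * (E * Nat.card K)) : ∃ v, W G b v ∧ 0 ≤ v := by
  rcases le_or_gt (Nat.card H) b with hle | hlt
  · have hne : H ≠ ⊤ := by
      rintro rfl
      rw [AddSubgroup.card_top] at hle
      omega
    refine ⟨_, WII_above hne hle (by rw [hH]; omega), ?_⟩
    rw [hH]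
    have h1 : 5 * (b : ℤ) ≤ 6 * (E * Nat.card K) := by exact_mod_cast h56
    have h2 : (0 : ℤ) ≤ b := by positivity
    push_cast
    apply mul_nonneg <;> nlinarith
  · have hd := dead_ge h hE
    have h1 : Nat.card H - b ≤ (E / 3) * Nat.card K := by
      rw [hH]
      have h2 : (E - E / 3) * Nat.card K + (E / 3) * Nat.card K = E * Nat.card K := by
        rw [← add_mul]; congr 1; omega
      omega
    obtain ⟨S, hS1, hS2, hS3⟩ := hS _ h1
    exact ⟨_, Or.inl ⟨H, S, hS1, hS2, by omega, rfl⟩, sq_nonneg _⟩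

/-- `f_G(b) ≥ - b² / 3` -/
theorem third [Finite G] {b : ℕ} (hb : b < Nat.card G) :
    ∃ v, W G b v ∧ -(b : ℤ) ^ 2 ≤ 3 * v := by
  classical
  by_cases hd : ∃ K : AddSubgroup G, ¬ Al b K
  · -- a dead subgroup of maximal order
    obtain ⟨K, hK, hmax⟩ : ∃ K : AddSubgroup G, ¬ Al b K ∧
        ∀ H : AddSubgroup G, ¬ Al b H → Nat.card H ≤ Nat.card K := by
      obtain ⟨K0, hK0⟩ := hd
      have hfin : Finite (AddSubgroup G) := inferInstance
      obtain ⟨K, hK, hmax⟩ := Set.exists_max_image {K : AddSubgroup G | ¬ Al b K}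
        (fun K => Nat.card K) (Set.toFinite _) ⟨K0, hK0⟩
      exact ⟨K, hK, fun H hH => hmax H hH⟩
    obtain ⟨E, hE1, hEmax, hEal, H, hKH, hHc, hS⟩ := exists_level K
    by_cases h56 : 5 * b ≤ 6 * (E * Nat.card K)
    · obtain ⟨v, hv, h0⟩ := dead_big hb hK hEal hHc hS h56
      exact ⟨v, hv, by nlinarith [sq_nonneg (b : ℤ)]⟩
    · push Not at h56
      have hKne : K ≠ ⊤ := by
        rintro rfl
        have h1 := hEmax
        rw [AddSubgroup.card_top] at h56
        nlinarith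
      have hHne : H ≠ ⊤ := by
        rintro rfl
        rw [AddSubgroup.card_top] at hHc
        omega
      have hE2 : 2 ≤ E := hEmax 2 (alive_two hKne)
      rcases le_or_gt b (2 * Nat.card H) with h2 | h2
      · refine ⟨_, WII_above hHne (by omega) h2, ?_⟩
        nlinarith [sq_nonneg (3 * (Nat.card H : ℤ) - 2 * b)]
      · have hal : Al b H := by
          by_contra hh
          have h3 := hmax H hh
          have h4 : 0 < Nat.card K := Nat.card_pos
          rw [hHc] at h3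
          nlinarith
        obtain ⟨v, hv, h5⟩ := al_val hal
        refine ⟨v, hv, ?_⟩
        have h6 : 2 * (Nat.card H : ℤ) ≤ b := by exact_mod_cast h2.le
        have h7 : (0 : ℤ) ≤ Nat.card H := by positivity
        nlinarith
  · push Not at hd
    obtain ⟨v, hv, h0⟩ := al_bot (hd ⊥)
    exact ⟨v, hv, by nlinarith [sq_nonneg (b : ℤ)]⟩

end Pool.Agent.NEG
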