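import Mathlib
import Pool.Agent.Lib_helper59.NEG.Wit
import Pool.Agent.Lib_helper59.NEG.Coset
import Pool.Agent.Lib_helper59.KEF.KS
import Pool.Agent.Lib_helper25.PR.NE
import Pool.Agent.Lib_helper25.PR.GI

/-!
# The negative regime
-/

set_option autoImplicit false

namespace Pool.Agent.NEG

open Finset Pool.Agent.GL Pool.Agent.POS Pool.Agent.KE

theorem bd_of {G : Type*} [AddCommGroup G] {b : ℕ} {F c : ℤ} (h : ∃ v, W G b v ∧ c ≤ v)
    (hF : F ≤ c) : Bd G b F := by
  obtain ⟨v, hv, hc⟩ := h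
  exact ⟨v, hv, hF.trans hc⟩

theorem bd_third {G : Type*} [AddCommGroup G] [Finite G] {b : ℕ} (hb : b < Nat.card G) {F : ℤ}
    (hF : 3 * F ≤ -(b : ℤ) ^ 2) : Bd G b F := by
  obtain ⟨v, hv, hc⟩ := third hb
  exact ⟨v, hv, by linarith⟩

theorem bd_al {G : Type*} [AddCommGroup G] {b : ℕ} {K : AddSubgroup G} (h : Al b K) {F : ℤ}
    (hF : 5 * F ≤ -4 * (Nat.card K : ℤ) ^ 2) : Bd G b F := by
  obtain ⟨v, hv, hc⟩ := al_val h
  exact ⟨v, hv, by linarith⟩

theorem ds_eq {G : Type*} [Fintype G] [DecidableEq G] (A X : Finset G) :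
    Lib_helper42.RS.ds A X = ((X \ A).card : ℤ) + ((A \ X).card : ℤ) := by
  classical
  have h : ∀ x, |Lib_helper42.RS.ind A x - Lib_helper42.RS.ind X x| =
      (if x ∈ X \ A then (1 : ℤ) else 0) + (if x ∈ A \ X then (1 : ℤ) else 0) := by
    intro x
    unfold Lib_helper42.RS.ind
    by_cases h1 : x ∈ A <;> by_cases h2 : x ∈ X <;> simp [h1, h2]
  unfold Lib_helper42.RS.ds
  rw [sum_congr rfl fun x _ => h x, sum_add_distrib, sum_boole, sum_boole]
  congr 2 <;> congr 1 <;> ext x <;> simp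

theorem neg_regime {G : Type*} [AddCommGroup G] [Fintype G] [DecidableEq G] {m : ℕ} [NeZero m]
    (chi : G →+ ZMod m) (hchi : Function.Surjective chi) (B : Finset G) (hB : NoWrap chi B)
    (h74 : 7 * (lev chi B 0).card ≤ 4 * B.card) (hb : B.card < Nat.card G)
    (hF : GL.FF B ≤ 0) : Bd G B.card (GL.FF B) := by
  classical
  set b := B.card with hbdef
  by_cases hd : ∃ K : AddSubgroup G, (∀ x ∈ K, chi x = 0) ∧ ¬ Al b K
  swap
  · push Not at hd
    exact bd_of (al_bot (hd ⊥ (by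
      intro x hx
      rw [AddSubgroup.mem_bot] at hx
      rw [hx, map_zero]))) hF
  -- the dead subgroup of `L` of maximal order
  obtain ⟨K0, hK0L, hK0, hmax⟩ : ∃ K : AddSubgroup G, (∀ x ∈ K, chi x = 0) ∧ ¬ Al b K ∧
      ∀ H : AddSubgroup G, (∀ x ∈ H, chi x = 0) → ¬ Al b H → Nat.card H ≤ Nat.card K := by
    obtain ⟨K0, hK0⟩ := hd
    have hfin : Finite (AddSubgroup G) := inferInstance
    obtain ⟨K, hK, hmax⟩ := Set.exists_max_image
      {K : AddSubgroup G | (∀ x ∈ K, chi x = 0) ∧ ¬ Al b K}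
      (fun K => Nat.card K) (Set.toFinite _) ⟨K0, hK0⟩
    exact ⟨K, hK.1, hK.2, fun H hH1 hH2 => hmax H ⟨hH1, hH2⟩⟩
  obtain ⟨E, hE1, hEmax, hEal, H, hKH, hHc, hS⟩ := exists_level K0
  have hkpos : 0 < Nat.card K0 := Nat.card_pos
  have hmE : m ≤ E := by
    apply hEmax
    obtain ⟨g, hg⟩ := hchi 1
    refine ⟨g, fun i h0 h1 h2 => ?_⟩
    have h3 := hK0L _ h2
    rw [map_nsmul, hg, nsmul_eq_mul, mul_one] at h3
    have h4 := (ZMod.natCast_eq_zero_iff i m).1 h3
    exact absurd (Nat.le_of_dvd h0 h4) (by omega)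
  by_cases h56 : 5 * b ≤ 6 * (E * Nat.card K0)
  · exact bd_of (dead_big hb hK0 hEal hHc hS h56) hF
  push Not at h56
  have hHne : H ≠ ⊤ := by
    rintro rfl
    rw [AddSubgroup.card_top] at hHc
    omega
  have hal : ∀ K : AddSubgroup G, (∀ x ∈ K, chi x = 0) → Nat.card K0 < Nat.card K → Al b K := by
    intro K hK hlt
    by_contra hh
    exact absurd (hmax K hK hh) (by omega)
  by_cases hnb : ∀ u v : ZMod m, 4 * Lib_helper13.PL.TT (lev chi B u) (lev chi B v)
      (lev chi B (u + v)) ≤ Qp (lev chi B u).card (lev chi B v).card (lev chi B (u + v)).card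
        + (Nat.card K0 : ℤ) ^ 2
  · obtain ⟨h1, h2⟩ := no_bonus chi B hB (by omega) (Nat.card K0 : ℤ) (by positivity) hnb
      (E : ℤ) (by exact_mod_cast hmE)
    by_cases h3 : 3 * (E * Nat.card K0) ≤ 2 * b
    · exact bd_third hb (h2 (by exact_mod_cast h3))
    · push Not at h3
      refine ⟨_, WII_above hHne (by rw [hHc]; omega) (by rw [hHc]; omega), ?_⟩
      refine h1.trans (le_of_eq ?_)
      rw [hHc]; push_cast; ring
  push Not at hnb
  -- near an alive subgroup or one of its cosets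
  by_cases hnear : ∃ (K : AddSubgroup G) (X : Finset G), (∀ x ∈ K, chi x = 0) ∧
      (Nat.card K0 : ℤ) < (Nat.card K : ℤ) ∧ Cst K X ∧
      4 * Lib_helper42.RS.ds (lev chi B 0) X < (Nat.card K : ℤ)
  · obtain ⟨K, X, hKL, hlt, hX, hr⟩ := hnear
    rw [ds_eq] at hr
    have hlt' : Nat.card K0 < Nat.card K := by exact_mod_cast hlt
    have hAl := hal K hKL hlt'
    set KK : Finset G := univ.filter (fun x => x ∈ K) with hKKdef
    have hKK : ∀ x, x ∈ KK ↔ x ∈ K := by intro x; simp [hKKdef]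
    have hKKc : KK.card = Nat.card K := by
      rw [Nat.card_eq_fintype_card, Fintype.card_subtype]
    by_cases hne : X = KK
    · rw [hne] at hr
      obtain ⟨j, s, hs, hbs, hW⟩ := al_exact hAl
      refine ⟨_, hW, ?_⟩
      refine near_regime chi B hB K KK hKK ?_ (Nat.card K : ℤ) (by rw [hKKc]) hr.le (j : ℤ) (s : ℤ)
        (by positivity) (by exact_mod_cast hs) hbs
      have h1 : 7 * ((lev chi B 0).card : ℤ) ≤ 4 * (B.card : ℤ) := by exact_mod_cast h74
      linarith
    · have h1 := coset_case K KK X (lev chi B 0) hKK hX hne (by rw [hKKc]; exact hr.le)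
      have h2 := ff_le_zero_level chi B hB
      rw [hKKc] at h1
      exact bd_al hAl (by linarith)
  push Not at hnear
  obtain ⟨u, v, huv⟩ := hnb
  have hE12 : 12 * ((m : ℤ) * (Nat.card K0 : ℤ)) ≤ 10 * (B.card : ℤ) := by
    have h1 : m * Nat.card K0 ≤ E * Nat.card K0 := Nat.mul_le_mul_right _ hmE
    have h2 : 12 * (m * Nat.card K0) ≤ 10 * B.card := by omega
    exact_mod_cast h2
  -- the smallest order above the dead ones
  by_cases hex : ∃ K : AddSubgroup G, (∀ x ∈ K, chi x = 0) ∧ Nat.card K0 < Nat.card K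
  · obtain ⟨K1, hK1L, hK1, hmin⟩ : ∃ K : AddSubgroup G, (∀ x ∈ K, chi x = 0) ∧
        Nat.card K0 < Nat.card K ∧ ∀ H : AddSubgroup G, (∀ x ∈ H, chi x = 0) →
          Nat.card K0 < Nat.card H → Nat.card K ≤ Nat.card H := by
      obtain ⟨K2, hK2⟩ := hex
      have hfin : Finite (AddSubgroup G) := inferInstance
      obtain ⟨K, hK, hmin⟩ := Set.exists_min_image
        {K : AddSubgroup G | (∀ x ∈ K, chi x = 0) ∧ Nat.card K0 < Nat.card K}
        (fun K => Nat.card K) (Set.toFinite _) ⟨K2, hK2⟩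
      exact ⟨K, hK.1, hK.2, fun H hH1 hH2 => hmin H ⟨hH1, hH2⟩⟩
    rcases far_regime chi B hB h74 (Nat.card K0 : ℤ) (Nat.card K1 : ℤ)
      (by exact_mod_cast hkpos) (by have : 0 < Nat.card K1 := Nat.card_pos
                                    exact_mod_cast this) hE12 (fun K hK => by
        rcases le_or_gt (Nat.card K) (Nat.card K0) with h | h
        · left; exact_mod_cast h
        · right
          exact ⟨by exact_mod_cast hmin K hK h, fun Y hY =>
            hnear K Y hK (by exact_mod_cast h) hY⟩) u v huv with h | h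
    · exact bd_al (hal K1 hK1L hK1) h
    · exact bd_third hb h
  · push Not at hex
    rcases far_regime chi B hB h74 (Nat.card K0 : ℤ) (Nat.card G : ℤ)
      (by exact_mod_cast hkpos) (by exact_mod_cast (by omega : 1 ≤ Nat.card G)) hE12
      (fun K hK => by left; exact_mod_cast hex K hK) u v huv with h | h
    · refine bd_third hb ?_
      have h1 : (B.card : ℤ) ≤ Nat.card G := by exact_mod_cast hb.le
      have h2 : (0 : ℤ) ≤ B.card := by positivity
      nlinarith
    · exact bd_third hb h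

end Pool.Agent.NEG
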