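import Mathlib
import Pool.Agent.Lib_helper59.NEG.Main
import Pool.Agent.Lib_helper25.PR.PZ

/-!
# No wrap, `7 |B₀| ≤ 4 |B|`
-/

set_option autoImplicit false

namespace Pool.Agent.NEG

open Finset Pool.Agent.GL Pool.Agent.POS

theorem card_lt {G : Type*} [AddCommGroup G] [Fintype G] [DecidableEq G] {m : ℕ} [NeZero m]
    (chi : G →+ ZMod m) (hchi : Function.Surjective chi) (B : Finset G) (hB : NoWrap chi B)
    (h74 : 7 * (lev chi B 0).card ≤ 4 * B.card) (h0 : B.Nonempty) : B.card < Nat.card G := by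
  classical
  rw [Nat.card_eq_fintype_card]
  refine lt_of_le_of_ne (card_le_univ B) fun he => ?_
  have hu : B = univ := (card_eq_iff_eq_univ B).1 he
  have hm : 0 < m := Nat.pos_of_ne_zero (NeZero.ne m)
  obtain ⟨g, hg⟩ := hchi ((m / 2 : ℕ) : ZMod m)
  have h1 := hB g (by rw [hu]; exact mem_univ _)
  rw [hg, ZMod.valMinAbs_natCast_of_le_half le_rfl] at h1
  have h2 : 3 * ((m / 2 : ℕ) : ℤ) < m := by
    have := le_abs_self (((m / 2 : ℕ) : ℤ))
    linarith
  have h3 : m = 1 := by omega
  subst h3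
  have h4 : lev chi B 0 = B := by
    unfold lev
    rw [filter_eq_self]
    intro x _
    exact Subsingleton.elim _ _
  rw [h4] at h74
  have := h0.card_pos
  omega

/-- the no-wrap case with `7 |B₀| ≤ 4 |B|` : all of it -/
theorem s4 {G : Type*} [AddCommGroup G] [Fintype G] [DecidableEq G] {m : ℕ} [NeZero m]
    (chi : G →+ ZMod m) (hchi : Function.Surjective chi) (B : Finset G) (hB : NoWrap chi B)
    (h74 : 7 * (lev chi B 0).card ≤ 4 * B.card) : Bd G B.card (GL.FF B) := by
  rcases B.eq_empty_or_nonempty with h0 | h0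
  · subst h0
    refine ⟨0, W_zero, ?_⟩
    simp [GL.FF, GL.sch]
  rcases le_or_gt (GL.FF B) 0 with h | h
  · exact neg_regime chi hchi B hB h74 (card_lt chi hchi B hB h74 h0) h
  · exact pos_regime chi hchi B hB (by omega) (by omega)

end Pool.Agent.NEG
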